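import Pool.Agent.NTS.StmtsE

/-!
# Squad NTS, row HTE
-/

set_option autoImplicit false

open Matrix Filter Topology

namespace Pool.Agent.NTS.H10

open Pool.Agent.PFS Pool.Agent.PFJ

theorem two_sum {n K : ℕ} (w : Fin K → V n) (j k : Fin K) (hjk : j ≠ k) (a b : ℝ) :
    ∑ i, (if i = j then a else if i = k then b else 0) • w i = a • w j + b • w k := by
  have h1 : ∀ i, (if i = j then a else if i = k then b else 0) • w i =
      (if i = j then a • w i else 0) + (if i = k then b • w i else 0) := by
    intro i
    by_cases h1 : i = j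
    · rw [if_pos h1, if_pos h1, if_neg (fun h => hjk (h1.symm.trans h)), add_zero]
    · rw [if_neg h1, if_neg h1, zero_add]
      by_cases h2 : i = k
      · rw [if_pos h2, if_pos h2]
      · rw [if_neg h2, if_neg h2, zero_smul]
  rw [Finset.sum_congr rfl fun i _ => h1 i, Finset.sum_add_distrib,
    Finset.sum_ite_eq' Finset.univ j, Finset.sum_ite_eq' Finset.univ k,
    if_pos (Finset.mem_univ j), if_pos (Finset.mem_univ k)]

theorem hte (nng : NngStmt) (hsl : HslStmt) : HteStmt := by
  intro n C Γ hC K hK hmax w w' ν M L hw hw' htriv hν hsum hnear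
  by_contra hS
  obtain ⟨j, k, hjk, -, -, -, hpar, hnot, M', -, hM'⟩ :=
    hsl n C Γ hC K hK hmax w w' ν M L hw hw' hν hsum hS hnear
  have hP : PCone C := hC.toPCone
  have hcl : w' k ∈ closure C := hw'.1.cl k
  obtain ⟨a, b, hab⟩ := htriv j k hjk (w' k) hcl M' hM'
  have hnn := nng n C hP (Fin K) w hw.1 (fun i => if i = j then a else if i = k then b else 0) (by
    rw [two_sum w j k hjk, ← hab]
    exact hcl)
  have ha : 0 ≤ a := by
    have := hnn j
    simpa using this
  have hb : 0 ≤ b := by
    have := hnn k
    rw [if_neg hjk.symm, if_pos rfl] at this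
    exact this
  have ha0 : a ≠ 0 := by
    rintro rfl
    exact hnot ⟨b, by rw [hab, zero_smul, zero_add]⟩
  have hapos : 0 < a := lt_of_le_of_ne ha (Ne.symm ha0)
  obtain ⟨c, hc, hcj⟩ := hpar j hjk
  have hnn' := nng n C hP (Fin K) w' hw'.1
    (fun i => if i = j then (-1) else if i = k then c / a else 0) (by
      rw [two_sum w' j k hjk, hab, hcj]
      have e : (-1 : ℝ) • c • w j + (c / a) • (a • w j + b • w k) = (c / a * b) • w k := by
        rw [smul_add, smul_smul, smul_smul, smul_smul, div_mul_cancel₀ _ ha0, ← add_assoc,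
          ← add_smul]
        rw [show (-1 : ℝ) * c + c = 0 by ring, zero_smul, zero_add]
      rw [e]
      exact hP.cl_smul (hw.1.cl k) (by positivity))
  have := hnn' j
  simp only [if_true] at this
  linarith

end Pool.Agent.NTS.H10
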